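import Pool.Agent.Work.MP_dbf1ea_an.Main

set_option autoImplicit false

open scoped Pointwise

namespace Pool.Agent.Work.MP_dbf1ea_an.Parked.Sp4

/-- Every discrete cocompact subgroup of the symplectic group of four by four matrices over a
locally compact nontrivially normed field (the reals, the complex numbers, or a non-archimedean
local field) is finitely generated and has property RD. -/
theorem result :
    ∀ (k : Type) [NontriviallyNormedField k] [LocallyCompactSpace k]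
      (Γ : Subgroup (Matrix.symplecticGroup (Fin 2) k)),
      DiscreteTopology Γ → CompactSpace (Matrix.symplecticGroup (Fin 2) k ⧸ Γ) →
        ∃ S : Finset Γ, Subgroup.closure (S : Set Γ) = ⊤ ∧
          ∃ C : ℝ, ∃ s : ℕ, ∀ n : ℕ, ∀ f g : Γ →₀ ℂ,
            (f.support : Set Γ) ⊆ (insert (1 : Γ) ((S : Set Γ) ∪ (S : Set Γ)⁻¹)) ^ n →
            (∑' γ : Γ, ‖∑ h ∈ f.support, f h * g (h⁻¹ * γ)‖ ^ 2)
              ≤ C * (1 + (n : ℝ)) ^ s * (∑' γ : Γ, ‖f γ‖ ^ 2) * (∑' γ : Γ, ‖g γ‖ ^ 2) := by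
  intro k _ _ Γ _ _
  haveI := ProperSpace.of_nontriviallyNormedField_of_weaklyLocallyCompactSpace k
  obtain ⟨w, hw⟩ := NormedField.exists_lt_norm k 4
  obtain ⟨Λ⟩ := Pool.Agent.Work.MP_dbf1ea_an.exists_lat ⟨w, hw.le⟩ Γ
  exact Λ.rd

end Pool.Agent.Work.MP_dbf1ea_an.Parked.Sp4
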